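import Pool.Agent.U280.OD.Stm
import Pool.Agent.Helper717.LT.Defs

/-!
# Project OE: the Lieb-Thirring kinetic inequality for balanced systems: statements of the packages

The same proof as in project OD with better functions `φ`, `μ` (now `psi`, `nu`), for `H¹` systems.
-/

set_option autoImplicit false

open MeasureTheory FourierTransform Set Filter Topology

namespace Pool.Agent.U280.OE

open Pool.Agent.U280.OD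

/-- `(2/√33) l e^(-τ l) (2 + 2 τ l + (τ l)²)` -/
noncomputable def nu (τ l : ℝ) : ℝ :=
  2 / Real.sqrt 33 * l * Real.exp (-(τ * l)) * (2 + 2 * (τ * l) + (τ * l) ^ 2)

/-- `(√33/12) (3 v⁻² - 2 v⁻³)` with `v = max 1 t` -/
noncomputable def psi (t : ℝ) : ℝ :=
  Real.sqrt 33 / 12 * (3 / (max 1 t) ^ 2 - 2 / (max 1 t) ^ 3)

/-- `nu τ (-Δ) exp (ε Δ) u` as a Fourier integral -/
noncomputable def cop {d : ℕ} (ε τ : ℝ) (u : E d → ℂ) (x : E d) : ℂ :=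
  𝓕⁻ (fun ξ : E d => ((nu τ (lam ξ) * Real.exp (-(ε * lam ξ)) : ℝ) : ℂ) * 𝓕 u ξ) x

/-- The factor `(160 / (33 π)) (d / (d + 2)) (8 ω_d / (d + 2)²)^(2/d)`. -/
noncomputable def fac2 (d : ℕ) : ℝ :=
  160 / (33 * Real.pi) * ((d : ℝ) / ((d : ℝ) + 2)) *
    (8 * (volume (Metric.ball (0 : E d) 1)).toReal / ((d : ℝ) + 2) ^ 2) ^ (2 / (d : ℝ))

/-! ### The packages -/

/-- Package A1: the decomposition `1 = exp (-s l) + ∫ ψ(τ/s) ν(τ, l) dτ`, and `∫ ν(τ, l)² dτ = l`. -/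
def T_A1 : Prop :=
  (∀ s l : ℝ, 0 < s → 0 ≤ l → IntegrableOn (fun τ => psi (τ / s) * nu τ l) (Ioi 0) ∧
    ∫ τ in Ioi (0 : ℝ), psi (τ / s) * nu τ l = 1 - Real.exp (-(s * l))) ∧
  ∀ l : ℝ, 0 ≤ l → ∫⁻ τ in Ioi (0 : ℝ), ENNReal.ofReal (nu τ l ^ 2) ≤ ENNReal.ofReal l

/-- Package A2: `ψ ≥ 0` and `∫ ψ(τ/s)² dτ = s (33/80)`. -/
def T_A2 : Prop :=
  (∀ t : ℝ, 0 ≤ psi t) ∧ Measurable psi ∧
  ∀ s : ℝ, 0 < s → IntegrableOn (fun τ => psi (τ / s) ^ 2) (Ioi 0) ∧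
    ∫ τ in Ioi (0 : ℝ), psi (τ / s) ^ 2 = s * (33 / 80)

/-- Package B: the Bessel inequality with the factor `1/2` for systems in `L²` whose span `V`
satisfies `∫ |w| w = 0` for all `w ∈ V`. -/
def T_B : Prop :=
  ∀ (d N : ℕ) (u : Fin N → E d → ℂ), (∀ n, MemLp (u n) 2) →
    (∀ n m, ∫ x, star (u n x) * u m x = if n = m then (1 : ℂ) else 0) →
    (∀ c : Fin N → ℂ, ∫ x, ((‖∑ n, c n * u n x‖ : ℝ) : ℂ) * ∑ n, c n * u n x = 0) →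
    ∀ s : ℝ, 0 < s → ∀ x : E d, ∑ n, ‖∫ y, ((G s (x - y) : ℝ) : ℂ) * u n y‖ ^ 2 ≤
      1 / 2 * (8 * Real.pi * s) ^ (-(d : ℝ) / 2)

/-- Package L: the heat kernel is continuous on `L²`. -/
def T_L : Prop :=
  ∀ (d : ℕ) (F : ℕ → E d → ℂ) (u : E d → ℂ), (∀ k, MemLp (F k) 2) → MemLp u 2 →
    Tendsto (fun k => ∫ x, ‖F k x - u x‖ ^ 2) atTop (𝓝 0) → ∀ s : ℝ, 0 < s → ∀ x : E d,
    Tendsto (fun k => ∫ y, ((G s (x - y) : ℝ) : ℂ) * F k y) atTop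
      (𝓝 (∫ y, ((G s (x - y) : ℝ) : ℂ) * u y))

/-- Package D, first part: measurability. -/
def T_D1 : Prop :=
  ∀ (d : ℕ) (u : E d → ℂ), Continuous u → HasCompactSupport u → ∀ ε : ℝ, 0 < ε →
    StronglyMeasurable (fun p : E d × ℝ => cop ε p.2 u p.1)

/-- Package D, second part: the pointwise decomposition. -/
def T_D2 : Prop :=
  ∀ (d : ℕ) (u : E d → ℂ), Continuous u → HasCompactSupport u → ∀ ε s : ℝ, 0 < ε → 0 < s →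
    ∀ x, heat ε u x - heat (s + ε) u x =
      ∫ τ in Ioi (0 : ℝ), ((psi (τ / s) : ℝ) : ℂ) * cop ε τ u x

/-- Package F1: Plancherel and integration over `τ`. -/
def T_F1 : Prop :=
  ∀ (d : ℕ) (u : E d → ℂ), Continuous u → HasCompactSupport u → ∀ ε : ℝ, 0 < ε →
    ∫⁻ x, ∫⁻ τ in Ioi (0 : ℝ), ‖cop ε τ u x‖ₑ ^ 2 ≤ ∫⁻ ξ, ENNReal.ofReal (lam ξ) * ‖𝓕 u ξ‖ₑ ^ 2

/-- Package N: the constants. -/
def T_N : Prop :=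
  (∀ d : ℕ, 1 ≤ d → (2 / ((d : ℝ) + 2)) ^ (4 / (d : ℝ)) * ((d : ℝ) / ((d : ℝ) + 2)) ^ 2 /
      (33 / 80 * (1 / 2 * (8 * Real.pi) ^ (-(d : ℝ) / 2)) ^ (2 / (d : ℝ))) = fac2 d * Kcl d) ∧
  1.62 ≤ fac2 1 ∧ fac2 2 = 40 / 33 ∧ 1.12 ≤ fac2 3 ∧ fac2 4 = 320 / 297 ∧ 1.03 ≤ fac2 5 ∧
  1.0005 ≤ fac2 6

/-- Package HL: a.e. convergence and a bound of the norms imply convergence in `L²`. -/
def T_HL : Prop :=
  ∀ (d : ℕ) (F : ℕ → (Fin d → ℝ) → ℝ) (f : (Fin d → ℝ) → ℝ), (∀ k, MemLp (F k) 2) → MemLp f 2 →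
    (∀ k, ∫ x, F k x ^ 2 ≤ ∫ x, f x ^ 2) →
    (∀ᵐ x, Tendsto (fun k => F k x) atTop (𝓝 (f x))) →
    Tendsto (fun k => ∫ x, (F k x - f x) ^ 2) atTop (𝓝 0)

/-- Package H: approximation of an `H¹` system by functions in `C_c^1`. -/
def T_H : Prop :=
  ∀ (d N : ℕ) (u : Fin N → (Fin d → ℝ) → ℂ) (g : Fin N → Fin d → (Fin d → ℝ) → ℂ),
    (∀ n, LTd.WGradC (u n) (g n)) →
    ∃ F : ℕ → Fin N → E d → ℂ, (∀ k n, ContDiff ℝ 1 (F k n)) ∧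
      (∀ k n, HasCompactSupport (F k n)) ∧
      (∀ᵐ x : E d, ∀ n, Tendsto (fun k => F k n x) atTop (𝓝 (u n (WithLp.ofLp x)))) ∧
      (∀ n, Tendsto (fun k => ∫ x : E d, ‖F k n x - u n (WithLp.ofLp x)‖ ^ 2) atTop (𝓝 0)) ∧
      ∀ k : ℕ, ∑ n, ∫ x, grad2 (F k n) x ≤
        (∑ n, ∑ j, ∫ x, ‖g n j x‖ ^ 2) + 1 / ((k : ℝ) + 1)

/-- Package I: systems with `∫ u_n u_m = 0` for all `n, m`. -/
def T_I : Prop :=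
  ∀ (d : ℕ), 1 ≤ d → ∀ (N : ℕ) (u : Fin N → (Fin d → ℝ) → ℂ)
    (g : Fin N → Fin d → (Fin d → ℝ) → ℂ), (∀ n, LTd.WGradC (u n) (g n)) →
    (∀ i j, ∫ x, (starRingEnd ℂ) (u i x) * u j x = if i = j then 1 else 0) →
    (∀ i j, ∫ x, u i x * u j x = 0) →
    Integrable (fun x => (∑ i, ‖u i x‖ ^ 2) ^ (1 + 2 / (d : ℝ))) ∧
    (3 : ℝ) ^ (1 / (d : ℝ)) * LTd.Kcl d * ∫ x, (∑ i, ‖u i x‖ ^ 2) ^ (1 + 2 / (d : ℝ)) ≤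
      ∑ i, ∑ k, ∫ x, ‖g i k x‖ ^ 2

/-- Package S: systems with a symmetry. -/
def T_S : Prop :=
  ∀ (d N : ℕ) (u : Fin N → (Fin d → ℝ) → ℂ), (∀ n, MemLp (u n) 2) →
    ∀ (g : (Fin d → ℝ) → (Fin d → ℝ)), MeasurePreserving g → ∀ ζ : ℂ, ‖ζ‖ = 1 → ζ ≠ 1 →
    (∀ n, ∀ᵐ x, u n (g x) = ζ * u n x) →
    (∀ c : Fin N → ℂ, ∫ x, ((‖∑ n, c n * u n x‖ : ℝ) : ℂ) * ∑ n, c n * u n x = 0) ∧
    (ζ ^ 2 ≠ 1 → ∀ i j, ∫ x, u i x * u j x = 0)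

end Pool.Agent.U280.OE
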