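import Pool.Agent.U280.OE.Stm

/-!
# Project OE: the pointwise inequality for functions in `C_c^1`
-/

set_option autoImplicit false

open MeasureTheory FourierTransform Set Filter Topology
open scoped ENNReal

namespace Pool.Agent.U280.OE

open Pool.Agent.U280.OD

/-- Cauchy-Schwarz for lintegrals, squared -/
theorem cs {α : Type*} [MeasurableSpace α] {μ : Measure α} {f g : α → ℝ≥0∞}
    (hf : AEMeasurable f μ) (hg : AEMeasurable g μ) :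
    (∫⁻ a, f a * g a ∂μ) ^ 2 ≤ (∫⁻ a, f a ^ 2 ∂μ) * ∫⁻ a, g a ^ 2 ∂μ := by
  have h := ENNReal.lintegral_mul_le_Lp_mul_Lq μ (Real.HolderConjugate.two_two) hf hg
  have h2 : ∀ F : α → ℝ≥0∞, (∫⁻ a, F a ^ (2 : ℝ) ∂μ) = ∫⁻ a, F a ^ 2 ∂μ := fun F =>
    lintegral_congr fun a => ENNReal.rpow_two _
  rw [h2, h2] at h
  have h3 : ∀ x : ℝ≥0∞, (x ^ (1 / (2 : ℝ))) ^ 2 = x := by
    intro x
    rw [← ENNReal.rpow_natCast, ← ENNReal.rpow_mul]
    norm_num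
  calc (∫⁻ a, f a * g a ∂μ) ^ 2 ≤ ((∫⁻ a, f a ^ 2 ∂μ) ^ (1 / (2 : ℝ)) *
      (∫⁻ a, g a ^ 2 ∂μ) ^ (1 / (2 : ℝ))) ^ 2 := by gcongr; exact h
    _ = _ := by rw [mul_pow, h3, h3]

theorem pointwise0 (hA2 : T_A2) (hD1 : T_D1) (hD2 : T_D2) {d N : ℕ} (u : Fin N → E d → ℂ)
    (hc : ∀ n, Continuous (u n)) (hs : ∀ n, HasCompactSupport (u n)) {ε s t : ℝ} (hε : 0 < ε)
    (h0 : 0 < s) (ht : 0 ≤ t) (x : E d)
    (hle : ∫⁻ τ in Ioi (0 : ℝ), ∑ n, ‖cop ε τ (u n) x‖ₑ ^ 2 ≤ ENNReal.ofReal t) :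
    Real.sqrt (∑ n, ‖heat ε (u n) x‖ ^ 2) ≤ Real.sqrt (s * (33 / 80) * t) +
      Real.sqrt (∑ n, ‖heat (s + ε) (u n) x‖ ^ 2) := by
  obtain ⟨p1, p2, p3⟩ := hA2
  obtain ⟨p4, p5⟩ := p3 s h0
  have hm : ∀ n, Measurable (fun τ : ℝ => cop ε τ (u n) x) := fun n =>
    ((hD1 d (u n) (hc n) (hs n) ε hε).comp_measurable (measurable_prodMk_left (x := x))).measurable
  have hφm : Measurable (fun τ : ℝ => ‖((psi (τ / s) : ℝ) : ℂ)‖ₑ) := by
    have : Measurable (fun τ : ℝ => psi (τ / s)) := p2.comp (measurable_id.div_const s)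
    exact (Complex.measurable_ofReal.comp this).enorm
  have e1 : ∫⁻ τ in Ioi (0 : ℝ), ‖((psi (τ / s) : ℝ) : ℂ)‖ₑ ^ 2 =
      ENNReal.ofReal (s * (33 / 80)) := by
    rw [← p5, ofReal_integral_eq_lintegral_ofReal p4 (ae_of_all _ fun _ => sq_nonneg _)]
    refine lintegral_congr fun τ => ?_
    rw [← ofReal_norm, Complex.norm_real, ← ENNReal.ofReal_pow (norm_nonneg _), Real.norm_eq_abs,
      sq_abs]
  have key : ∀ n, ‖heat ε (u n) x - heat (s + ε) (u n) x‖ₑ ^ 2 ≤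
      ENNReal.ofReal (s * (33 / 80)) *
        ∫⁻ τ in Ioi (0 : ℝ), ‖cop ε τ (u n) x‖ₑ ^ 2 := by
    intro n
    rw [hD2 d (u n) (hc n) (hs n) ε s hε h0 x, ← e1]
    refine le_trans ?_ (cs hφm.aemeasurable (hm n).enorm.aemeasurable)
    gcongr
    refine (enorm_integral_le_lintegral_enorm _).trans (le_of_eq ?_)
    refine lintegral_congr fun τ => ?_
    rw [enorm_mul]
  have key2 : ∑ n, ‖heat ε (u n) x - heat (s + ε) (u n) x‖ₑ ^ 2 ≤
      ENNReal.ofReal (s * (33 / 80)) * ENNReal.ofReal t := by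
    calc _ ≤ ∑ n, ENNReal.ofReal (s * (33 / 80)) *
        ∫⁻ τ in Ioi (0 : ℝ), ‖cop ε τ (u n) x‖ₑ ^ 2 := Finset.sum_le_sum fun n _ => key n
      _ = ENNReal.ofReal (s * (33 / 80)) *
          ∫⁻ τ in Ioi (0 : ℝ), ∑ n, ‖cop ε τ (u n) x‖ₑ ^ 2 := by
        rw [← Finset.mul_sum, lintegral_finsetSum _ fun n _ => (hm n).enorm.pow_const 2]
      _ ≤ _ := by gcongr
  have key3 : ∑ n, ‖heat ε (u n) x - heat (s + ε) (u n) x‖ ^ 2 ≤
      s * (33 / 80) * t := by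
    rw [← ENNReal.ofReal_mul (by positivity)] at key2
    have e2 : ∑ n, ‖heat ε (u n) x - heat (s + ε) (u n) x‖ₑ ^ 2 =
        ENNReal.ofReal (∑ n, ‖heat ε (u n) x - heat (s + ε) (u n) x‖ ^ 2) := by
      rw [ENNReal.ofReal_sum_of_nonneg fun _ _ => sq_nonneg _]
      refine Finset.sum_congr rfl fun n _ => ?_
      rw [← ofReal_norm, ENNReal.ofReal_pow (norm_nonneg _)]
    rw [e2] at key2
    exact (ENNReal.ofReal_le_ofReal_iff (by positivity)).1 key2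
  set a : EuclideanSpace ℂ (Fin N) := WithLp.toLp 2 (fun n => heat ε (u n) x) with ha
  set b : EuclideanSpace ℂ (Fin N) := WithLp.toLp 2 (fun n => heat (s + ε) (u n) x) with hb
  have n1 : Real.sqrt (∑ n, ‖heat ε (u n) x‖ ^ 2) = ‖a‖ := (EuclideanSpace.norm_eq a).symm
  have n2 : Real.sqrt (∑ n, ‖heat (s + ε) (u n) x‖ ^ 2) = ‖b‖ := (EuclideanSpace.norm_eq b).symm
  have n3 : Real.sqrt (∑ n, ‖heat ε (u n) x - heat (s + ε) (u n) x‖ ^ 2) = ‖a - b‖ :=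
    (EuclideanSpace.norm_eq (a - b)).symm
  rw [n1, n2]
  have h4 : ‖a - b‖ ≤ Real.sqrt (s * (33 / 80) * t) := by
    rw [← n3]
    exact Real.sqrt_le_sqrt key3
  calc ‖a‖ = ‖(a - b) + b‖ := by rw [sub_add_cancel]
    _ ≤ ‖a - b‖ + ‖b‖ := norm_add_le _ _
    _ ≤ _ := by linarith

/-- the lower bound for `t` given by the values `a`, `b` -/
noncomputable def LB (s a b : ℝ) : ℝ≥0∞ :=
  ENNReal.ofReal ((max 0 (Real.sqrt a - Real.sqrt b)) ^ 2 / (s * (33 / 80)))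

theorem LB_cont (s b : ℝ) : Continuous fun a => LB s a b := by
  unfold LB
  exact ENNReal.continuous_ofReal.comp (by fun_prop)

theorem LB_cont2 (s : ℝ) : Continuous fun p : ℝ × ℝ => LB s p.1 p.2 := by
  unfold LB
  exact ENNReal.continuous_ofReal.comp (by fun_prop)

theorem LB_anti {s s' : ℝ} (h0 : 0 < s') (h : s' ≤ s) (a b : ℝ) : LB s a b ≤ LB s' a b := by
  unfold LB
  apply ENNReal.ofReal_le_ofReal
  gcongr

/-- back from the lower bound -/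
theorem of_LB {s a b t : ℝ} (hs : 0 < s) (ht : 0 ≤ t) (h : LB s a b ≤ ENNReal.ofReal t) :
    Real.sqrt a ≤ Real.sqrt (s * (33 / 80) * t) + Real.sqrt b := by
  unfold LB at h
  rw [ENNReal.ofReal_le_ofReal_iff ht, div_le_iff₀ (by positivity)] at h
  have h1 : max 0 (Real.sqrt a - Real.sqrt b) ≤ Real.sqrt (s * (33 / 80) * t) := by
    apply Real.le_sqrt_of_sq_le
    linarith
  have := (le_max_right 0 (Real.sqrt a - Real.sqrt b)).trans h1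
  linarith

theorem pointwise (hA2 : T_A2) (hD1 : T_D1) (hD2 : T_D2) {d N : ℕ} (u : Fin N → E d → ℂ)
    (hc : ∀ n, Continuous (u n)) (hs : ∀ n, HasCompactSupport (u n)) {ε s : ℝ} (hε : 0 < ε)
    (h0 : 0 < s) (x : E d) :
    LB s (∑ n, ‖heat ε (u n) x‖ ^ 2) (∑ n, ‖heat (s + ε) (u n) x‖ ^ 2) ≤
      ∫⁻ τ in Ioi (0 : ℝ), ∑ n, ‖cop ε τ (u n) x‖ₑ ^ 2 := by
  set T := ∫⁻ τ in Ioi (0 : ℝ), ∑ n, ‖cop ε τ (u n) x‖ₑ ^ 2 with hT
  rcases eq_or_ne T ⊤ with h | h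
  · rw [h]; exact le_top
  have h1 : T = ENNReal.ofReal T.toReal := (ENNReal.ofReal_toReal h).symm
  have h2 := pointwise0 hA2 hD1 hD2 u hc hs hε h0 ENNReal.toReal_nonneg x h1.le
  rw [h1]
  unfold LB
  refine ENNReal.ofReal_le_ofReal ?_
  rw [div_le_iff₀ (by positivity)]
  have h3 : max 0 (Real.sqrt (∑ n, ‖heat ε (u n) x‖ ^ 2) -
      Real.sqrt (∑ n, ‖heat (s + ε) (u n) x‖ ^ 2)) ≤ Real.sqrt (s * (33 / 80) * T.toReal) :=
    max_le (Real.sqrt_nonneg _) (by linarith)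
  calc _ ≤ Real.sqrt (s * (33 / 80) * T.toReal) ^ 2 := by
        gcongr
    _ = T.toReal * (s * (33 / 80)) := by
        rw [Real.sq_sqrt (by have := ENNReal.toReal_nonneg (a := T); positivity)]
        ring

/-- the sequence `1 / (k + 1)` -/
noncomputable def ee (k : ℕ) : ℝ := 1 / ((k : ℝ) + 1)

theorem ee_pos (k : ℕ) : 0 < ee k := by unfold ee; positivity

theorem ee_lim : Tendsto ee atTop (𝓝 0) := tendsto_one_div_add_atTop_nhds_zero_nat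

theorem ee_lim' : Tendsto ee atTop (𝓝[>] 0) :=
  tendsto_nhdsWithin_iff.2 ⟨ee_lim, Eventually.of_forall ee_pos⟩

/-- the local energy -/
noncomputable def TT {d N : ℕ} (F : Fin N → E d → ℂ) (x : E d) : ℝ≥0∞ :=
  liminf (fun j => ∫⁻ τ in Ioi (0 : ℝ), ∑ n, ‖cop (ee j) τ (F n) x‖ₑ ^ 2) atTop

theorem stage1 (hA2 : T_A2) (hC : S_C) (hD1 : T_D1) (hD2 : T_D2) {d N : ℕ} (F : Fin N → E d → ℂ)
    (hc : ∀ n, Continuous (F n)) (hs : ∀ n, HasCompactSupport (F n)) {s : ℝ} (h0 : 0 < s)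
    (x : E d) :
    LB s (∑ n, ‖F n x‖ ^ 2) (∑ n, ‖∫ y, ((G s (x - y) : ℝ) : ℂ) * F n y‖ ^ 2) ≤ TT F x := by
  set b := ∑ n, ‖∫ y, ((G s (x - y) : ℝ) : ℂ) * F n y‖ ^ 2 with hb
  have hb2 : ∑ n, ‖heat s (F n) x‖ ^ 2 = b := by
    refine Finset.sum_congr rfl fun n _ => ?_
    rw [(hC d (F n) (hc n) (hs n)).1 s h0 x]
  have h1 : Tendsto (fun j => ∑ n, ‖heat (ee j) (F n) x‖ ^ 2) atTop (𝓝 (∑ n, ‖F n x‖ ^ 2)) := by
    refine tendsto_finsetSum _ fun n _ => ?_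
    exact (((hC d (F n) (hc n) (hs n)).2 x).comp ee_lim').norm.pow 2
  have h2 : Tendsto (fun j => LB s (∑ n, ‖heat (ee j) (F n) x‖ ^ 2) b) atTop
      (𝓝 (LB s (∑ n, ‖F n x‖ ^ 2) b)) := ((LB_cont s b).tendsto _).comp h1
  rw [← h2.liminf_eq]
  unfold TT
  refine liminf_le_liminf ?_
  have h3 : ∀ᶠ j in atTop, ee j < s := ee_lim.eventually_lt_const h0
  filter_upwards [h3] with j hj
  have h4 := pointwise hA2 hD1 hD2 F hc hs (ee_pos j) (sub_pos.2 hj) x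
  rw [sub_add_cancel, hb2] at h4
  exact (LB_anti (sub_pos.2 hj) (by have := ee_pos j; linarith) _ _).trans h4

theorem meas_t (hD1 : T_D1) {d N : ℕ} (F : Fin N → E d → ℂ)
    (hc : ∀ n, Continuous (F n)) (hs : ∀ n, HasCompactSupport (F n)) (j : ℕ) :
    Measurable fun x => ∫⁻ τ in Ioi (0 : ℝ), ∑ n, ‖cop (ee j) τ (F n) x‖ₑ ^ 2 := by
  have hm : Measurable fun p : E d × ℝ => ∑ n, ‖cop (ee j) p.2 (F n) p.1‖ₑ ^ 2 :=
    Finset.measurable_fun_sum _ fun n _ =>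
      (hD1 d (F n) (hc n) (hs n) (ee j) (ee_pos j)).measurable.enorm.pow_const 2
  exact Measurable.lintegral_prod_right' hm

theorem meas_TT (hD1 : T_D1) {d N : ℕ} (F : Fin N → E d → ℂ)
    (hc : ∀ n, Continuous (F n)) (hs : ∀ n, HasCompactSupport (F n)) :
    Measurable (TT F) :=
  Measurable.liminf fun j => meas_t hD1 F hc hs j

theorem energy0 (hD1 : T_D1) (hF1 : T_F1) (hF2 : S_F2) {d N : ℕ} (u : Fin N → E d → ℂ)
    (hd : ∀ n, ContDiff ℝ 1 (u n)) (hs : ∀ n, HasCompactSupport (u n)) (j : ℕ) :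
    ∫⁻ x, ∫⁻ τ in Ioi (0 : ℝ), ∑ n, ‖cop (ee j) τ (u n) x‖ₑ ^ 2 ≤
      ∑ n, ∫⁻ x, ENNReal.ofReal (grad2 (u n) x) := by
  have hc : ∀ n, Continuous (u n) := fun n => (hd n).continuous
  set F : Fin N → E d × ℝ → ℝ≥0∞ := fun n p => ‖cop (ee j) p.2 (u n) p.1‖ₑ ^ 2 with hF
  have hm : ∀ n, Measurable (F n) := fun n =>
    (hD1 d (u n) (hc n) (hs n) (ee j) (ee_pos j)).measurable.enorm.pow_const 2
  have h1 : ∀ x : E d, ∫⁻ τ in Ioi (0 : ℝ), ∑ n, F n (x, τ) =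
      ∑ n, ∫⁻ τ in Ioi (0 : ℝ), F n (x, τ) := by
    intro x
    rw [lintegral_finsetSum]
    intro n _
    exact (hm n).comp (measurable_prodMk_left (x := x))
  have h2 : ∀ n, Measurable (fun x : E d => ∫⁻ τ in Ioi (0 : ℝ), F n (x, τ)) := by
    intro n
    exact Measurable.lintegral_prod_right' (hm n)
  have h3 : ∫⁻ x : E d, ∫⁻ τ in Ioi (0 : ℝ), ∑ n, F n (x, τ) =
      ∑ n, ∫⁻ x : E d, ∫⁻ τ in Ioi (0 : ℝ), F n (x, τ) := by
    rw [lintegral_congr h1, lintegral_finsetSum _ fun n _ => h2 n]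
  refine h3.le.trans ?_
  refine Finset.sum_le_sum fun n _ => ?_
  exact (hF1 d (u n) (hc n) (hs n) (ee j) (ee_pos j)).trans
    (hF2 d (u n) (hd n) (hs n))

theorem energy1 (hD1 : T_D1) (hF1 : T_F1) (hF2 : S_F2) {d N : ℕ} (u : Fin N → E d → ℂ)
    (hd : ∀ n, ContDiff ℝ 1 (u n)) (hs : ∀ n, HasCompactSupport (u n)) :
    ∫⁻ x, TT u x ≤ ∑ n, ∫⁻ x, ENNReal.ofReal (grad2 (u n) x) := by
  have hc : ∀ n, Continuous (u n) := fun n => (hd n).continuous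
  unfold TT
  refine (lintegral_liminf_le fun j => meas_t hD1 u hc hs j).trans ?_
  refine liminf_le_of_le (by isBoundedDefault) ?_
  intro b hb
  obtain ⟨k, hk⟩ := hb.exists
  exact hk.trans (energy0 hD1 hF1 hF2 u hd hs k)

end Pool.Agent.U280.OE
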