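import Pool.Agent.U280.OE.Asm

/-!
# Project OE: the inequality for `H¹` systems
-/

set_option autoImplicit false

open MeasureTheory FourierTransform Set Filter Topology
open scoped ENNReal

namespace Pool.Agent.U280.OE

open Pool.Agent.U280.OD

/-- the constant -/
noncomputable def KK2 (d : ℕ) : ℝ :=
  (2 / ((d : ℝ) + 2)) ^ (4 / (d : ℝ)) * ((d : ℝ) / ((d : ℝ) + 2)) ^ 2 /
      (33 / 80 * (1 / 2 * (8 * Real.pi) ^ (-(d : ℝ) / 2)) ^ (2 / (d : ℝ)))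

theorem KK2_pos {d : ℕ} (hd : 1 ≤ d) : 0 < KK2 d := by
  have : 0 < (d : ℝ) := by exact_mod_cast hd
  unfold KK2
  positivity

/-- the measure preserving map `E d → (Fin d → ℝ)` -/
theorem mp (d : ℕ) : MeasurePreserving (fun x : E d => (WithLp.ofLp x : Fin d → ℝ)) :=
  PiLp.volume_preserving_ofLp (Fin d)

theorem int_comp {d : ℕ} (f : (Fin d → ℝ) → ℂ) :
    ∫ x : E d, f (WithLp.ofLp x) = ∫ x, f x :=
  (EuclideanSpace.volume_preserving_symm_measurableEquiv_toLp (Fin d)).integral_comp' f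

theorem lint_comp {d : ℕ} (f : (Fin d → ℝ) → ℝ≥0∞) :
    ∫⁻ x : E d, f (WithLp.ofLp x) = ∫⁻ x, f x :=
  (EuclideanSpace.volume_preserving_symm_measurableEquiv_toLp (Fin d)).lintegral_comp_emb
    (MeasurableEquiv.measurableEmbedding _) f

theorem LB_lim {s a0 b0 : ℝ} {a b : ℕ → ℝ} (ha : Tendsto a atTop (𝓝 a0))
    (hb : Tendsto b atTop (𝓝 b0)) : Tendsto (fun k => LB s (a k) (b k)) atTop (𝓝 (LB s a0 b0)) := by
  have h1 : Tendsto (fun k => Real.sqrt (a k) - Real.sqrt (b k)) atTop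
      (𝓝 (Real.sqrt a0 - Real.sqrt b0)) := ha.sqrt.sub hb.sqrt
  have h2 : Tendsto (fun k => max 0 (Real.sqrt (a k) - Real.sqrt (b k))) atTop
      (𝓝 (max 0 (Real.sqrt a0 - Real.sqrt b0))) := tendsto_const_nhds.max h1
  have h3 := (h2.pow 2).div_const (s * (33 / 80))
  exact ENNReal.tendsto_ofReal h3

/-- the pointwise inequality, abstract form -/
theorem abs_pt (hG : S_G) {d : ℕ} (hd : 1 ≤ d) {T : ℕ → ℝ≥0∞} {a : ℕ → ℝ} {a0 : ℝ}
    {b : ℝ → ℕ → ℝ} {b0 : ℝ → ℝ} (h0 : 0 ≤ a0) (ha : Tendsto a atTop (𝓝 a0))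
    (hb : ∀ s : ℝ, 0 < s → Tendsto (b s) atTop (𝓝 (b0 s)))
    (hle : ∀ s : ℝ, 0 < s → ∀ k, LB s (a k) (b s k) ≤ T k)
    (hB : ∀ s : ℝ, 0 < s → b0 s ≤ 1 / 2 * (8 * Real.pi * s) ^ (-(d : ℝ) / 2)) :
    ENNReal.ofReal (KK2 d * a0 ^ (1 + 2 / (d : ℝ))) ≤ liminf T atTop := by
  rcases eq_or_ne (liminf T atTop) ⊤ with h | h
  · rw [h]; exact le_top
  have h1 : liminf T atTop = ENNReal.ofReal (liminf T atTop).toReal := (ENNReal.ofReal_toReal h).symm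
  rw [h1]
  refine ENNReal.ofReal_le_ofReal ?_
  refine hG d a0 (liminf T atTop).toReal (1 / 2 * (8 * Real.pi) ^ (-(d : ℝ) / 2)) (33 / 80) hd
    h0 ENNReal.toReal_nonneg (by positivity) (by norm_num) ?_
  intro s hs
  have h4 : LB s a0 (b0 s) ≤ ENNReal.ofReal (liminf T atTop).toReal := by
    rw [← h1, ← (LB_lim (s := s) ha (hb s hs)).liminf_eq]
    exact liminf_le_liminf (Eventually.of_forall fun k => hle s hs k)
  have h5 := of_LB hs ENNReal.toReal_nonneg h4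
  refine h5.trans ?_
  have h6 : Real.sqrt (b0 s) ≤
      Real.sqrt (1 / 2 * (8 * Real.pi) ^ (-(d : ℝ) / 2) * s ^ (-(d : ℝ) / 2)) := by
    apply Real.sqrt_le_sqrt
    refine (hB s hs).trans (le_of_eq ?_)
    rw [mul_assoc (1 / 2 : ℝ), ← Real.mul_rpow (by positivity) hs.le]
  linarith

section

variable {d N : ℕ} {u : Fin N → (Fin d → ℝ) → ℂ} {g : Fin N → Fin d → (Fin d → ℝ) → ℂ}
  (hd : 1 ≤ d) (hu : ∀ n, LTd.WGradC (u n) (g n))
  (ho : ∀ i j, ∫ x, (starRingEnd ℂ) (u i x) * u j x = if i = j then 1 else 0)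
  (hb : ∀ c : Fin N → ℂ, ∫ x, ((‖∑ n, c n * u n x‖ : ℝ) : ℂ) * ∑ n, c n * u n x = 0)

include hu in
theorem mem (n : Fin N) : MemLp (fun x : E d => u n (WithLp.ofLp x)) 2 :=
  (hu n).f2.comp_measurePreserving (mp d)

include hd hu ho hb in
theorem lintegral_le (hA2 : T_A2) (hB : T_B) (hL : T_L) (hC : S_C) (hD1 : T_D1) (hD2 : T_D2)
    (hG : S_G) (hF1 : T_F1) (hF2 : S_F2) (hH : T_H) :
    ∫⁻ x, ENNReal.ofReal (KK2 d * (∑ n, ‖u n x‖ ^ 2) ^ (1 + 2 / (d : ℝ))) ≤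
      ENNReal.ofReal (∑ n, ∑ j, ∫ x, ‖g n j x‖ ^ 2) := by
  obtain ⟨F, hF1c, hF2c, hae, hL2, hen⟩ := hH d N u g hu
  have hFc : ∀ k n, Continuous (F k n) := fun k n => (hF1c k n).continuous
  set Q : E d → ℝ≥0∞ := fun x => liminf (fun k => TT (F k) x) atTop with hQ
  have hlow : ∀ (s : ℝ), 0 < s → ∀ x : E d,
      Tendsto (fun k => ∑ n, ‖∫ y, ((G s (x - y) : ℝ) : ℂ) * F k n y‖ ^ 2) atTop
      (𝓝 (∑ n, ‖∫ y : E d, ((G s (x - y) : ℝ) : ℂ) * u n (WithLp.ofLp y)‖ ^ 2)) := by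
    intro s hs x
    refine tendsto_finsetSum _ fun n _ => ?_
    refine Tendsto.pow (Tendsto.norm ?_) 2
    exact hL d (fun k => F k n) (fun y => u n (WithLp.ofLp y))
      (fun k => (hFc k n).memLp_of_hasCompactSupport (hF2c k n)) (mem hu n) (hL2 n) s hs x
  have hBs := hB d N (fun n x => u n (WithLp.ofLp x)) (mem hu)
    (fun n m => (int_comp (fun x => star (u n x) * u m x)).trans (ho n m))
    (fun c => (int_comp (fun x => ((‖∑ n, c n * u n x‖ : ℝ) : ℂ) * ∑ n, c n * u n x)).trans (hb c))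
  have hpt : ∀ᵐ x : E d, ENNReal.ofReal (KK2 d *
      (∑ n, ‖u n (WithLp.ofLp x)‖ ^ 2) ^ (1 + 2 / (d : ℝ))) ≤ Q x := by
    filter_upwards [hae] with x hx
    have h3 : Tendsto (fun k => ∑ n, ‖F k n x‖ ^ 2) atTop
        (𝓝 (∑ n, ‖u n (WithLp.ofLp x)‖ ^ 2)) :=
      tendsto_finsetSum _ fun n _ => (hx n).norm.pow 2
    exact abs_pt hG hd (T := fun k => TT (F k) x)
      (b := fun s k => ∑ n, ‖∫ y, ((G s (x - y) : ℝ) : ℂ) * F k n y‖ ^ 2)
      (b0 := fun s => ∑ n, ‖∫ y : E d, ((G s (x - y) : ℝ) : ℂ) * u n (WithLp.ofLp y)‖ ^ 2)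
      (Finset.sum_nonneg fun _ _ => sq_nonneg _) h3 (fun s hs => hlow s hs x)
      (fun s hs k => stage1 hA2 hC hD1 hD2 (F k) (hFc k) (hF2c k) hs x)
      (fun s hs => hBs s hs x)
  have hE : ∀ k, ∫⁻ x, TT (F k) x ≤
      ENNReal.ofReal ((∑ n, ∑ j, ∫ x, ‖g n j x‖ ^ 2) + 1 / ((k : ℝ) + 1)) := by
    intro k
    have hg0 : ∀ n x, 0 ≤ grad2 (F k n) x := fun n x => Finset.sum_nonneg fun _ _ => sq_nonneg _
    have hgi : ∀ n, Integrable (grad2 (F k n)) := by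
      intro n
      have c1 : Continuous (grad2 (F k n)) := by
        unfold grad2
        refine continuous_finsetSum _ fun i _ => ?_
        exact ((((hF1c k n).continuous_fderiv one_ne_zero).clm_apply continuous_const).norm).pow 2
      have c2 : HasCompactSupport (grad2 (F k n)) := by
        refine HasCompactSupport.mono' ((hF2c k n).fderiv ℝ) ?_
        intro x hx
        refine subset_tsupport _ ?_
        rw [Function.mem_support]
        intro h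
        apply hx
        unfold grad2
        rw [h]
        simp
      exact c1.integrable_of_hasCompactSupport c2
    refine (energy1 hD1 hF1 hF2 (F k) (hF1c k) (hF2c k)).trans ?_
    have e1 : ∑ n, ∫⁻ x, ENNReal.ofReal (grad2 (F k n) x) =
        ENNReal.ofReal (∑ n, ∫ x, grad2 (F k n) x) := by
      rw [ENNReal.ofReal_sum_of_nonneg fun n _ => integral_nonneg (hg0 n)]
      refine Finset.sum_congr rfl fun n _ => ?_
      rw [ofReal_integral_eq_lintegral_ofReal (hgi n) (ae_of_all _ (hg0 n))]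
    rw [e1]
    exact ENNReal.ofReal_le_ofReal (hen k)
  have hlim : Tendsto (fun k : ℕ => ENNReal.ofReal ((∑ n, ∑ j, ∫ x, ‖g n j x‖ ^ 2) +
      1 / ((k : ℝ) + 1))) atTop (𝓝 (ENNReal.ofReal (∑ n, ∑ j, ∫ x, ‖g n j x‖ ^ 2))) := by
    refine ENNReal.tendsto_ofReal ?_
    have h := tendsto_one_div_add_atTop_nhds_zero_nat (𝕜 := ℝ)
    simpa using h.const_add (∑ n, ∑ j, ∫ x, ‖g n j x‖ ^ 2)
  rw [← lint_comp]
  calc ∫⁻ x : E d, ENNReal.ofReal (KK2 d *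
        (∑ n, ‖u n (WithLp.ofLp x)‖ ^ 2) ^ (1 + 2 / (d : ℝ)))
      ≤ ∫⁻ x, Q x := lintegral_mono_ae hpt
    _ ≤ liminf (fun k => ∫⁻ x, TT (F k) x) atTop :=
        lintegral_liminf_le fun k => meas_TT hD1 (F k) (hFc k) (hF2c k)
    _ ≤ liminf (fun k : ℕ => ENNReal.ofReal ((∑ n, ∑ j, ∫ x, ‖g n j x‖ ^ 2) +
          1 / ((k : ℝ) + 1))) atTop := liminf_le_liminf (Eventually.of_forall hE)
    _ = _ := hlim.liminf_eq

include hd hu ho hb in
/-- the inequality -/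
theorem main (hA2 : T_A2) (hB : T_B) (hL : T_L) (hC : S_C) (hD1 : T_D1) (hD2 : T_D2)
    (hG : S_G) (hF1 : T_F1) (hF2 : S_F2) (hH : T_H) :
    Integrable (fun x => (∑ n, ‖u n x‖ ^ 2) ^ (1 + 2 / (d : ℝ))) ∧
    KK2 d * ∫ x, (∑ n, ‖u n x‖ ^ 2) ^ (1 + 2 / (d : ℝ)) ≤ ∑ n, ∑ j, ∫ x, ‖g n j x‖ ^ 2 := by
  have hK := KK2_pos hd
  have h := lintegral_le hd hu ho hb hA2 hB hL hC hD1 hD2 hG hF1 hF2 hH
  have hq0 : ∀ x, 0 ≤ KK2 d * (∑ n, ‖u n x‖ ^ 2) ^ (1 + 2 / (d : ℝ)) := fun x => by positivity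
  have hm : AEStronglyMeasurable
      (fun x => (∑ n, ‖u n x‖ ^ 2) ^ (1 + 2 / (d : ℝ))) volume := by
    have h1 : AEMeasurable (fun x => ∑ n, ‖u n x‖ ^ 2) volume :=
      Finset.aemeasurable_fun_sum _ fun n _ =>
        ((hu n).f2.aestronglyMeasurable.aemeasurable.norm).pow_const 2
    exact (h1.pow_const _).aestronglyMeasurable
  have hi : Integrable (fun x => KK2 d * (∑ n, ‖u n x‖ ^ 2) ^ (1 + 2 / (d : ℝ))) := by
    refine ⟨hm.const_mul _, ?_⟩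
    rw [hasFiniteIntegral_iff_ofReal (ae_of_all _ hq0)]
    exact h.trans_lt ENNReal.ofReal_lt_top
  have hi2 : Integrable (fun x => (∑ n, ‖u n x‖ ^ 2) ^ (1 + 2 / (d : ℝ))) := by
    have h2 := hi.const_mul (KK2 d)⁻¹
    refine h2.congr (ae_of_all _ fun x => ?_)
    simp only
    rw [← mul_assoc, inv_mul_cancel₀ hK.ne', one_mul]
  refine ⟨hi2, ?_⟩
  rw [← ofReal_integral_eq_lintegral_ofReal hi (ae_of_all _ hq0),
    ENNReal.ofReal_le_ofReal_iff (Finset.sum_nonneg fun n _ => Finset.sum_nonneg fun j _ =>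
      integral_nonneg fun x => sq_nonneg _), integral_const_mul] at h
  exact h

end

end Pool.Agent.U280.OE
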